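import Pool.Agent.T2H64.AP.Final

/-!
# The closed-or-dense dichotomy fails for suitable symmetry groups of every Apollonian packing

Every Apollonian circle packing `P` has a discrete symmetry group `Γ`, conjugate to a subgroup of
`SL₂(ℤ[i])`, all of whose orbits on the Riemann sphere accumulate exactly at the closure of `P`,
for which the orbit of some circle separating the limit set is neither closed nor dense in the space
of circles meeting the limit set. (`Γ` is an infinite ping-pong group.)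
-/

set_option autoImplicit false

namespace Pool.Agent.Results.MP_cc6c48_an.EveryPacking

open Matrix OnePoint

/-- `GL₂(ℂ)`, acting on the Riemann sphere `OnePoint ℂ` by Moebius maps (Mathlib) -/
abbrev M := Matrix.GeneralLinearGroup (Fin 2) ℂ

/-- the extended real line -/
def realLine : Set (OnePoint ℂ) :=
  insert (OnePoint.infty : OnePoint ℂ) (Set.range (fun x : ℝ => OnePoint.some (x : ℂ)))

/-- the image of a set under a Moebius map -/
def image (g : M) (S : Set (OnePoint ℂ)) : Set (OnePoint ℂ) := (fun w : OnePoint ℂ => g • w) '' S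

/-- the circle `g (ℝ ∪ {∞})` -/
def circle (g : M) : Set (OnePoint ℂ) := image g realLine

def IsCircle (V : Set (OnePoint ℂ)) : Prop := ∃ g : M, V = circle g

/-- two circles with exactly one common point -/
def Tangent (S T : Set (OnePoint ℂ)) : Prop := ∃! p, p ∈ S ∩ T

/-- `F` contains every circle tangent to three mutually tangent members of `F` without common point -/
def SoddyClosed (F : Set (Set (OnePoint ℂ))) : Prop := ∀ S ∈ F, ∀ T ∈ F, ∀ U ∈ F, ∀ V : Set (OnePoint ℂ),
  IsCircle V → Tangent S T → Tangent T U → Tangent S U → S ∩ T ∩ U = ∅ →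
  Tangent V S → Tangent V T → Tangent V U → V ∈ F

/-- an Apollonian packing: the smallest closed family containing four mutually tangent circles -/
def IsApollonian (P : Set (Set (OnePoint ℂ))) : Prop := ∃ C₁ C₂ C₃ C₄ : Set (OnePoint ℂ),
  IsCircle C₁ ∧ IsCircle C₂ ∧ IsCircle C₃ ∧ IsCircle C₄ ∧
  Tangent C₁ C₂ ∧ Tangent C₁ C₃ ∧ Tangent C₁ C₄ ∧ Tangent C₂ C₃ ∧ Tangent C₂ C₄ ∧ Tangent C₃ C₄ ∧
  C₁ ∩ C₂ ∩ C₃ = ∅ ∧ C₁ ∩ C₂ ∩ C₄ = ∅ ∧ C₁ ∩ C₃ ∩ C₄ = ∅ ∧ C₂ ∩ C₃ ∩ C₄ = ∅ ∧
  P = ⋂₀ {F | C₁ ∈ F ∧ C₂ ∈ F ∧ C₃ ∈ F ∧ C₄ ∈ F ∧ SoddyClosed F}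

/-- Gaussian integer entries and determinant one -/
def IsGaussian (g : M) : Prop := (∀ i j, ∃ m n : ℤ, g i j = (m : ℂ) + (n : ℂ) * Complex.I) ∧
  g 0 0 * g 1 1 - g 0 1 * g 1 0 = 1

/-- the matrices `h` such that the circle `h (ℝ ∪ {∞})` is in the orbit `Γ C` -/
def orbit (Γ : Subgroup M) (C : Set (OnePoint ℂ)) : Set M := {h | ∃ γ ∈ Γ, circle h = image γ C}

/-- upper and lower half plane -/
def upper : Set (OnePoint ℂ) := OnePoint.some '' {z : ℂ | 0 < z.im}
def lower : Set (OnePoint ℂ) := OnePoint.some '' {z : ℂ | z.im < 0}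

theorem result (P : Set (Set (OnePoint ℂ))) (hP : IsApollonian P) : ∃ Γ : Subgroup M,
    -- `Γ` is conjugate to a subgroup of `SL₂(ℤ[i])`
    (∃ g : M, ∀ γ ∈ Γ, IsGaussian (g * γ * g⁻¹)) ∧
    -- `Γ` preserves the packing, and its limit set is the closure of the packing
    (∀ γ ∈ Γ, ∀ S : Set (OnePoint ℂ), S ∈ P ↔ image γ S ∈ P) ∧
    (∀ z : OnePoint ℂ, derivedSet {w : OnePoint ℂ | ∃ g ∈ Γ, w = g • z} = closure (⋃₀ P)) ∧
    -- there is a circle separating the limit set
    ∃ C : Set (OnePoint ℂ), (∃ g : M, C = circle g ∧ (image g upper ∩ closure (⋃₀ P)).Nonempty ∧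
      (image g lower ∩ closure (⋃₀ P)).Nonempty) ∧
    -- whose orbit is not closed and not dense in the space of circles meeting the limit set
    ¬ IsClosed (orbit Γ C) ∧
    ∃ h : M, (circle h ∩ closure (⋃₀ P)).Nonempty ∧ h ∉ closure (orbit Γ C) :=
  Pool.Agent.T2H64.AP.final_all P hP

end Pool.Agent.Results.MP_cc6c48_an.EveryPacking
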